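import Mathlib

set_option autoImplicit false

namespace Pool.Agent.N606.KLook

open scoped BigOperators

/-- A mechanism for the bidders `ι`: the allocation probabilities `x v i` and the expected payments
`p v i` as functions of the reported profile `v`. -/
structure Mech (ι : Type) where
  x : (ι → ℝ) → ι → ℝ
  p : (ι → ℝ) → ι → ℝ

/-- The mechanism is feasible, individually rational and truthful in expectation, at every profile
of positive values: bidder `i` has utility `x v i * v i - p v i`. -/
structure Mech.Valid {ι : Type} [Fintype ι] [DecidableEq ι] (M : Mech ι) : Prop where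
  nonneg : ∀ v : ι → ℝ, (∀ i, 0 < v i) → ∀ i, 0 ≤ M.x v i
  feasible : ∀ v : ι → ℝ, (∀ i, 0 < v i) → ∑ i, M.x v i ≤ 1
  rational : ∀ v : ι → ℝ, (∀ i, 0 < v i) → ∀ i, 0 ≤ M.x v i * v i - M.p v i
  truthful : ∀ v : ι → ℝ, (∀ i, 0 < v i) → ∀ i, ∀ b : ℝ, 0 < b →
    M.x (Function.update v i b) i * v i - M.p (Function.update v i b) i ≤
      M.x v i * v i - M.p v i

/-- A finitely supported probability distribution on the profiles of positive values. -/
structure Prior (ι : Type) where
  pr : (ι → ℝ) →₀ ℝ
  nonneg : ∀ v, 0 ≤ pr v
  total : ∑ v ∈ pr.support, pr v = 1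
  pos : ∀ v ∈ pr.support, ∀ i, 0 < v i

/-- Expected revenue of the mechanism `M` under `D`. -/
noncomputable def revenue {ι : Type} [Fintype ι] (D : Prior ι) (M : Mech ι) : ℝ :=
  ∑ v ∈ D.pr.support, D.pr v * ∑ i, M.p v i

/-- The largest expected revenue of a valid mechanism. -/
noncomputable def opt {ι : Type} [Fintype ι] [DecidableEq ι] (D : Prior ι) : ℝ :=
  sSup {r : ℝ | ∃ M : Mech ι, M.Valid ∧ r = revenue D M}

/-- The set of the `k` highest bidders at the profile `v`, ties broken by index: bidder `i` belongs
to it when fewer than `k` bidders `j` rank before `i`, that is, have `v j > v i`, or `v j = v i`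
and `j < i`. -/
noncomputable def top {n : ℕ} (k : ℕ) (v : Fin n → ℝ) : Finset (Fin n) :=
  open Classical in
  Finset.univ.filter fun i =>
    (Finset.univ.filter fun j => v i < v j ∨ (v j = v i ∧ j < i)).card < k

/-- The event on which the `k`-lookahead mechanism conditions: the profiles `v` of the support whose
values outside `K` are `w` and in which every bidder of `K` has value at least
`v* = max w` (the condition is void when nobody is outside `K`). -/
noncomputable def event {n : ℕ} (D : Prior (Fin n)) (K : Finset (Fin n))
    (w : {j : Fin n // j ∉ K} → ℝ) : Finset (Fin n → ℝ) :=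
  open Classical in
  D.pr.support.filter fun v =>
    (∀ j : {j : Fin n // j ∉ K}, v j = w j) ∧
      ∀ i ∈ K, ∀ j : {j : Fin n // j ∉ K}, w j ≤ v i

/-- Expected revenue of a mechanism `M` for the bidders in `K` under the conditional distribution of
`(v i)_{i ∈ K}` given the event `event D K w`. -/
noncomputable def condRevenue {n : ℕ} (D : Prior (Fin n)) (K : Finset (Fin n))
    (w : {j : Fin n // j ∉ K} → ℝ) (M : Mech {i : Fin n // i ∈ K}) : ℝ :=
  (∑ v ∈ event D K w, D.pr v * ∑ i, M.p (fun j => v j) i) / ∑ v ∈ event D K w, D.pr v

/-- `A` is a choice of mechanisms as in the `k`-lookahead mechanism for `D`: at each profile `v` of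
the support, with `K = top k v`, the bidders in `K` are served by the mechanism
`A K (values outside K)`, which is valid and maximises the expected revenue under the conditional
distribution among all valid mechanisms for the bidders in `K`. -/
def IsLookahead {n : ℕ} (k : ℕ) (D : Prior (Fin n))
    (A : (K : Finset (Fin n)) → ({j : Fin n // j ∉ K} → ℝ) → Mech {i : Fin n // i ∈ K}) : Prop :=
  ∀ v ∈ D.pr.support,
    (A (top k v) (fun j => v j)).Valid ∧
      ∀ M : Mech {i : Fin n // i ∈ top k v}, M.Valid →
        condRevenue D (top k v) (fun j => v j) M ≤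
          condRevenue D (top k v) (fun j => v j) (A (top k v) (fun j => v j))

/-- Expected revenue under `D` of the `k`-lookahead mechanism with the choice `A`: at the profile
`v` only the bidders of `K = top k v` are served, by `A K (values outside K)`. -/
noncomputable def lookRevenue {n : ℕ} (k : ℕ) (D : Prior (Fin n))
    (A : (K : Finset (Fin n)) → ({j : Fin n // j ∉ K} → ℝ) → Mech {i : Fin n // i ∈ K}) : ℝ :=
  ∑ v ∈ D.pr.support, D.pr v *
    ∑ i : {i : Fin n // i ∈ top k v}, (A (top k v) (fun j => v j)).p (fun j => v j) i

/-- The approximation ratio of the `k`-lookahead mechanism: the infimum of `rev_k(D) / OPT(D)` over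
all numbers `n` of bidders and all `D` with `OPT(D) > 0`. -/
noncomputable def rho (k : ℕ) : EReal :=
  sInf {r : EReal | ∃ (n : ℕ) (D : Prior (Fin n))
    (A : (K : Finset (Fin n)) → ({j : Fin n // j ∉ K} → ℝ) → Mech {i : Fin n // i ∈ K}),
    IsLookahead k D A ∧ 0 < opt D ∧ r = ((lookRevenue k D A / opt D : ℝ) : EReal)}

end Pool.Agent.N606.KLook
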