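import Mathlib
import Pool.Agent.N606.KLook.Defs

set_option autoImplicit false

namespace Pool.Agent.N606.KLook

open scoped BigOperators

/-- The least utility of bidder `i` over her possible values. -/
noncomputable def u0 {ι : Type} [DecidableEq ι] (M : Mech ι) (v : ι → ℝ) (i : ι) : ℝ :=
  sInf ((fun t : ℝ => M.x (Function.update v i t) i * t - M.p (Function.update v i t) i) ''
    Set.Ioi 0)

variable {ι : Type} [Fintype ι] [DecidableEq ι]

theorem pos_update {v : ι → ℝ} (hv : ∀ i, 0 < v i) (i : ι) {t : ℝ} (ht : 0 < t) :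
    ∀ j, 0 < Function.update v i t j := by
  intro j
  by_cases h : j = i
  · subst h; simpa using ht
  · simpa [Function.update_of_ne h] using hv j

theorem u_nonneg (M : Mech ι) (hM : M.Valid) {v : ι → ℝ} (hv : ∀ i, 0 < v i) (i : ι) {t : ℝ}
    (ht : 0 < t) :
    0 ≤ M.x (Function.update v i t) i * t - M.p (Function.update v i t) i := by
  have := hM.rational _ (pos_update hv i ht) i
  simpa using this

theorem u0_bdd (M : Mech ι) (hM : M.Valid) {v : ι → ℝ} (hv : ∀ i, 0 < v i) (i : ι) :
    BddBelow ((fun t : ℝ => M.x (Function.update v i t) i * t -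
      M.p (Function.update v i t) i) '' Set.Ioi 0) := by
  refine ⟨0, ?_⟩
  rintro _ ⟨t, ht, rfl⟩
  exact u_nonneg M hM hv i ht

theorem u0_nonneg (M : Mech ι) (hM : M.Valid) {v : ι → ℝ} (hv : ∀ i, 0 < v i) (i : ι) :
    0 ≤ u0 M v i := by
  unfold u0
  apply Real.sInf_nonneg
  rintro _ ⟨t, ht, rfl⟩
  simpa using u_nonneg M hM hv i ht

theorem u0_le (M : Mech ι) (hM : M.Valid) {v : ι → ℝ} (hv : ∀ i, 0 < v i) (i : ι) :
    u0 M v i ≤ M.x v i * v i - M.p v i := by
  apply csInf_le (u0_bdd M hM hv i)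
  refine ⟨v i, hv i, ?_⟩
  simp

theorem neg_p_le_u0 (M : Mech ι) (hM : M.Valid) {v : ι → ℝ} (hv : ∀ i, 0 < v i) (i : ι) :
    - M.p v i ≤ u0 M v i := by
  apply le_csInf
  · exact ⟨_, ⟨1, by simp, rfl⟩⟩
  · rintro _ ⟨t, ht, rfl⟩
    have ht' : (0 : ℝ) < t := ht
    have h := hM.truthful _ (pos_update hv i ht') i (v i) (hv i)
    simp only [Function.update_idem, Function.update_eq_self, Function.update_self] at h
    have hx := hM.nonneg v hv i
    have : 0 ≤ M.x v i * t := mul_nonneg hx ht'.le
    simp only []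
    linarith

theorem u0_update (M : Mech ι) (v : ι → ℝ) (i : ι) (b : ℝ) :
    u0 M (Function.update v i b) i = u0 M v i := by
  unfold u0
  simp only [Function.update_idem]

theorem x_le_one (M : Mech ι) (hM : M.Valid) {v : ι → ℝ} (hv : ∀ i, 0 < v i) (i : ι) :
    M.x v i ≤ 1 := by
  have h := hM.feasible v hv
  have h2 : M.x v i ≤ ∑ j, M.x v j :=
    Finset.single_le_sum (f := fun j => M.x v j) (fun j _ => hM.nonneg v hv j) (Finset.mem_univ i)
  linarith

theorem p_le (M : Mech ι) (hM : M.Valid) {v : ι → ℝ} (hv : ∀ i, 0 < v i) (i : ι) :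
    M.p v i ≤ v i := by
  have h1 := hM.rational v hv i
  have h2 := x_le_one M hM hv i
  have h3 : M.x v i * v i ≤ 1 * v i := mul_le_mul_of_nonneg_right h2 (hv i).le
  linarith

open Classical in
/-- Normalised mechanism: all payments are nonnegative, zero off the positive profiles. -/
noncomputable def norm (M : Mech ι) : Mech ι where
  x := fun v i => if ∀ j, 0 < v j then M.x v i else 0
  p := fun v i => if ∀ j, 0 < v j then M.p v i + u0 M v i else 0

theorem norm_valid (M : Mech ι) (hM : M.Valid) : (norm M).Valid where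
  nonneg := by
    intro v hv i
    simp only [norm, if_pos hv]
    exact hM.nonneg v hv i
  feasible := by
    intro v hv
    simp only [norm, if_pos hv]
    exact hM.feasible v hv
  rational := by
    intro v hv i
    simp only [norm, if_pos hv]
    have := u0_le M hM hv i
    linarith
  truthful := by
    intro v hv i b hb
    simp only [norm, if_pos hv, if_pos (pos_update hv i hb), u0_update]
    have := hM.truthful v hv i b hb
    linarith

/-- The compact set of normalised mechanisms. -/
def good (ι : Type) [Fintype ι] [DecidableEq ι] :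
    Set (((ι → ℝ) → ι → ℝ) × ((ι → ℝ) → ι → ℝ)) :=
  {m | (∀ v i, m.1 v i ∈ Set.Icc (0 : ℝ) 1) ∧ (∀ v i, m.2 v i ∈ Set.Icc (0 : ℝ) |v i|) ∧
    (∀ v : ι → ℝ, (∀ i, 0 < v i) → ∑ i, m.1 v i ≤ 1) ∧
    (∀ v : ι → ℝ, (∀ i, 0 < v i) → ∀ i, 0 ≤ m.1 v i * v i - m.2 v i) ∧
    (∀ v : ι → ℝ, (∀ i, 0 < v i) → ∀ i, ∀ b : ℝ, 0 < b →
      m.1 (Function.update v i b) i * v i - m.2 (Function.update v i b) i ≤
        m.1 v i * v i - m.2 v i)}

theorem norm_good (M : Mech ι) (hM : M.Valid) : ((norm M).x, (norm M).p) ∈ good ι := by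
  refine ⟨?_, ?_, (norm_valid M hM).feasible, (norm_valid M hM).rational,
    (norm_valid M hM).truthful⟩
  · intro v i
    by_cases hv : ∀ j, 0 < v j
    · exact ⟨(norm_valid M hM).nonneg v hv i, x_le_one _ (norm_valid M hM) hv i⟩
    · simp [norm, if_neg hv]
  · intro v i
    by_cases hv : ∀ j, 0 < v j
    · refine ⟨?_, ?_⟩
      · simp only [norm, if_pos hv]
        have := neg_p_le_u0 M hM hv i
        linarith
      · rw [abs_of_pos (hv i)]
        exact p_le _ (norm_valid M hM) hv i
    · simp [norm, if_neg hv]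

theorem good_compact : IsCompact (good ι) := by
  have hK : IsCompact ((Set.univ.pi fun _ : ι → ℝ => Set.univ.pi fun _ : ι => Set.Icc (0 : ℝ) 1) ×ˢ
      (Set.univ.pi fun v : ι → ℝ => Set.univ.pi fun i : ι => Set.Icc (0 : ℝ) |v i|)) := by
    apply IsCompact.prod
    · exact isCompact_univ_pi fun _ => isCompact_univ_pi fun _ => isCompact_Icc
    · exact isCompact_univ_pi fun _ => isCompact_univ_pi fun _ => isCompact_Icc
  have c1 : ∀ v i, Continuous fun m : ((ι → ℝ) → ι → ℝ) × ((ι → ℝ) → ι → ℝ) => m.1 v i :=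
    fun v i => (continuous_apply i).comp ((continuous_apply v).comp continuous_fst)
  have c2 : ∀ v i, Continuous fun m : ((ι → ℝ) → ι → ℝ) × ((ι → ℝ) → ι → ℝ) => m.2 v i :=
    fun v i => (continuous_apply i).comp ((continuous_apply v).comp continuous_snd)
  refine hK.of_isClosed_subset ?_ ?_
  · unfold good
    simp only [Set.ofPred_and, Set.ofPred_forall]
    refine IsClosed.inter ?_ (IsClosed.inter ?_ (IsClosed.inter ?_ (IsClosed.inter ?_ ?_)))
    · exact isClosed_iInter fun v => isClosed_iInter fun i => isClosed_Icc.preimage (c1 v i)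
    · exact isClosed_iInter fun v => isClosed_iInter fun i => isClosed_Icc.preimage (c2 v i)
    · exact isClosed_iInter fun v => isClosed_iInter fun _ =>
        isClosed_le (continuous_finsetSum _ fun i _ => c1 v i) continuous_const
    · exact isClosed_iInter fun v => isClosed_iInter fun _ => isClosed_iInter fun i =>
        isClosed_le continuous_const (((c1 v i).mul continuous_const).sub (c2 v i))
    · exact isClosed_iInter fun v => isClosed_iInter fun _ => isClosed_iInter fun i =>
        isClosed_iInter fun b => isClosed_iInter fun _ =>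
        isClosed_le (((c1 _ i).mul continuous_const).sub (c2 _ i))
          (((c1 v i).mul continuous_const).sub (c2 v i))
  · rintro m ⟨h1, h2, -⟩
    exact ⟨fun v _ i _ => h1 v i, fun v _ i _ => h2 v i⟩

/-- A valid mechanism of largest weighted revenue exists. -/
theorem exists_best {σ : Type} (S : Finset σ) (f : σ → ι → ℝ) (hf : ∀ a ∈ S, ∀ i, 0 < f a i)
    (c : σ → ℝ) (hc : ∀ a ∈ S, 0 ≤ c a) :
    ∃ M : Mech ι, M.Valid ∧ ∀ M' : Mech ι, M'.Valid →
      ∑ a ∈ S, c a * ∑ i, M'.p (f a) i ≤ ∑ a ∈ S, c a * ∑ i, M.p (f a) i := by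
  have hz : (⟨fun _ _ => 0, fun _ _ => 0⟩ : Mech ι).Valid := by
    constructor <;> intros <;> simp
  have hne : (good ι).Nonempty := ⟨_, norm_good _ hz⟩
  have hcont : Continuous fun m : ((ι → ℝ) → ι → ℝ) × ((ι → ℝ) → ι → ℝ) =>
      ∑ a ∈ S, c a * ∑ i, m.2 (f a) i := by
    refine continuous_finsetSum _ fun a _ => continuous_const.mul
      (continuous_finsetSum _ fun i _ => ?_)
    exact (continuous_apply i).comp ((continuous_apply (f a)).comp continuous_snd)
  obtain ⟨m, hm, hmax⟩ := good_compact.exists_isMaxOn hne hcont.continuousOn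
  refine ⟨⟨m.1, m.2⟩, ⟨fun v _ i => (hm.1 v i).1, hm.2.2.1, hm.2.2.2.1, hm.2.2.2.2⟩, ?_⟩
  intro M' hM'
  have h1 := hmax (norm_good M' hM')
  refine le_trans ?_ h1
  refine Finset.sum_le_sum fun a ha => mul_le_mul_of_nonneg_left ?_ (hc a ha)
  refine Finset.sum_le_sum fun i _ => ?_
  simp only [norm, if_pos (hf a ha)]
  have := u0_nonneg M' hM' (hf a ha) i
  linarith

end Pool.Agent.N606.KLook
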