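import Mathlib
import Pool.Agent.N606.KLook.Exist

set_option autoImplicit false

namespace Pool.Agent.N606.KLook

open scoped BigOperators

/-- Every prior admits a choice of `k`-lookahead mechanisms. -/
theorem exists_lookahead {n : ℕ} (k : ℕ) (D : Prior (Fin n)) :
    ∃ A : (K : Finset (Fin n)) → ({j : Fin n // j ∉ K} → ℝ) → Mech {i : Fin n // i ∈ K},
      IsLookahead k D A := by
  have hev : ∀ (K : Finset (Fin n)) (w : {j : Fin n // j ∉ K} → ℝ), ∀ v ∈ event D K w,
      v ∈ D.pr.support := fun K w v hv => (Finset.mem_filter.1 hv).1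
  have key : ∀ (K : Finset (Fin n)) (w : {j : Fin n // j ∉ K} → ℝ),
      ∃ M : Mech {i : Fin n // i ∈ K}, M.Valid ∧ ∀ M' : Mech {i : Fin n // i ∈ K}, M'.Valid →
        ∑ v ∈ event D K w, D.pr v * ∑ i, M'.p (fun j => v j) i ≤
          ∑ v ∈ event D K w, D.pr v * ∑ i, M.p (fun j => v j) i := fun K w =>
    exists_best (event D K w) (fun v (j : {i : Fin n // i ∈ K}) => v j)
      (fun v hv j => D.pos v (hev K w v hv) j) D.pr (fun v _ => D.nonneg v)
  choose A hA1 hA2 using key
  refine ⟨A, fun v _ => ⟨hA1 _ _, fun M hM => ?_⟩⟩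
  unfold condRevenue
  apply div_le_div_of_nonneg_right (hA2 _ _ M hM)
  exact Finset.sum_nonneg fun v _ => D.nonneg v

theorem revenue_bdd {ι : Type} [Fintype ι] [DecidableEq ι] (D : Prior ι) :
    BddAbove {r : ℝ | ∃ M : Mech ι, M.Valid ∧ r = revenue D M} := by
  refine ⟨∑ v ∈ D.pr.support, D.pr v * ∑ i, v i, ?_⟩
  rintro _ ⟨M, hM, rfl⟩
  unfold revenue
  refine Finset.sum_le_sum fun v hv => mul_le_mul_of_nonneg_left ?_ (D.nonneg v)
  exact Finset.sum_le_sum fun i _ => p_le M hM (D.pos v hv) i

theorem revenue_le_opt {ι : Type} [Fintype ι] [DecidableEq ι] (D : Prior ι) (M : Mech ι)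
    (hM : M.Valid) : revenue D M ≤ opt D :=
  le_csSup (revenue_bdd D) ⟨M, hM, rfl⟩

variable {m r : ℕ}

/-- The shares of the insiders. -/
abbrev State (m r : ℕ) := Fin m → Fin (2 * r + 2)

/-- The parity of the sum of the shares is even. -/
def par (s : State m r) : Prop := Even (∑ j, (s j : ℕ))

/-- The number of possible shares. -/
noncomputable def qq (r : ℕ) : ℝ := 2 * r + 2

theorem qq_pos (r : ℕ) : 0 < qq r := by unfold qq; positivity

theorem two_le_qq (r : ℕ) : 2 ≤ qq r := by
  unfold qq; have : (0:ℝ) ≤ r := Nat.cast_nonneg r; linarith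

/-- Value of an insider with share `c`. -/
noncomputable def val (r : ℕ) (c : Fin (2 * r + 2)) : ℝ := 1 + ((c : ℕ) + 1 : ℝ) / qq r ^ 2

theorem one_lt_val (c : Fin (2 * r + 2)) : 1 < val r c := by
  unfold val
  have : (0 : ℝ) < ((c : ℕ) + 1 : ℝ) / qq r ^ 2 := by
    have := qq_pos r
    positivity
  linarith

theorem val_le (c : Fin (2 * r + 2)) : val r c ≤ 1 + 1 / qq r := by
  unfold val
  have hq := qq_pos r
  have hc : ((c : ℕ) : ℝ) + 1 ≤ qq r := by
    have : (c : ℕ) + 1 ≤ 2 * r + 2 := c.2
    unfold qq
    exact_mod_cast this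
  have : ((c : ℕ) + 1 : ℝ) / qq r ^ 2 ≤ 1 / qq r := by
    rw [div_le_div_iff₀ (by positivity) hq]
    nlinarith
  linarith

theorem val_lt {c d : Fin (2 * r + 2)} (h : c < d) : val r c < val r d := by
  unfold val
  have hq := qq_pos r
  have : ((c : ℕ) : ℝ) < ((d : ℕ) : ℝ) := by exact_mod_cast h
  gcongr

theorem val_inj {c d : Fin (2 * r + 2)} (h : val r c = val r d) : c = d := by
  rcases lt_trichotomy c d with h1 | h1 | h1
  · exact absurd h (val_lt h1).ne
  · exact h1
  · exact absurd h (val_lt h1).ne'

/-- The profile with shares `s` and value `t` of the special bidder `0`; the last bidder is the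
outsider, of value `1`. -/
noncomputable def prof (s : State m r) (t : ℝ) : Fin (m + 2) → ℝ :=
  Fin.cons (α := fun _ => ℝ) t (Fin.snoc (α := fun _ => ℝ) (fun j => val r (s j)) 1)

/-- The index of the insider `j`. -/
def ins (j : Fin m) : Fin (m + 2) := (Fin.castSucc j).succ

@[simp] theorem prof_zero (s : State m r) (t : ℝ) : prof s t 0 = t := by
  simp [prof]

@[simp] theorem prof_last (s : State m r) (t : ℝ) : prof s t (Fin.last (m + 1)) = 1 := by
  unfold prof
  rw [← Fin.succ_last, Fin.cons_succ, Fin.snoc_last]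

@[simp] theorem prof_ins (s : State m r) (t : ℝ) (j : Fin m) : prof s t (ins j) = val r (s j) := by
  unfold prof ins
  rw [Fin.cons_succ, Fin.snoc_castSucc]

theorem sum_split (f : Fin (m + 2) → ℝ) :
    ∑ i, f i = f 0 + (∑ j : Fin m, f (ins j)) + f (Fin.last (m + 1)) := by
  rw [Fin.sum_univ_succ, Fin.sum_univ_castSucc, Fin.succ_last]
  unfold ins
  ring

theorem fin_cases3 (i : Fin (m + 2)) : i = 0 ∨ i = Fin.last (m + 1) ∨ ∃ j : Fin m, i = ins j := by
  rcases Fin.eq_zero_or_eq_succ i with h | ⟨i', h⟩
  · exact Or.inl h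
  · rcases Fin.eq_castSucc_or_eq_last i' with ⟨j, h2⟩ | h2
    · exact Or.inr (Or.inr ⟨j, by rw [h, h2]; rfl⟩)
    · exact Or.inr (Or.inl (by rw [h, h2, Fin.succ_last]))

theorem prof_pos (s : State m r) {t : ℝ} (ht : 0 < t) (i : Fin (m + 2)) : 0 < prof s t i := by
  rcases fin_cases3 i with h | h | ⟨j, h⟩
  · subst h; simpa using ht
  · subst h; simp
  · subst h
    rw [prof_ins]
    have := one_lt_val (s j)
    linarith

theorem ins_ne_zero (j : Fin m) : ins j ≠ 0 := Fin.succ_ne_zero _

theorem ins_ne_last (j : Fin m) : ins j ≠ Fin.last (m + 1) := by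
  unfold ins
  rw [← Fin.succ_last]
  intro h
  have := Fin.succ_injective _ h
  exact (Fin.castSucc_lt_last j).ne this

theorem ins_inj {i j : Fin m} (h : ins i = ins j) : i = j :=
  Fin.castSucc_injective _ (Fin.succ_injective _ h)

theorem update_zero (s : State m r) (t t' : ℝ) :
    Function.update (prof s t) 0 t' = prof s t' := by
  funext i
  rcases fin_cases3 i with h | h | ⟨j, h⟩
  · subst h; simp
  · subst h
    rw [Function.update_of_ne (Fin.last_pos).ne']
    simp
  · subst h
    rw [Function.update_of_ne (ins_ne_zero j)]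
    simp

theorem update_ins (s : State m r) (t : ℝ) (j : Fin m) (c : Fin (2 * r + 2)) :
    Function.update (prof s t) (ins j) (val r c) = prof (Function.update s j c) t := by
  funext i
  rcases fin_cases3 i with h | h | ⟨j', h⟩
  · subst h
    rw [Function.update_of_ne (ins_ne_zero j).symm]
    simp
  · subst h
    rw [Function.update_of_ne (ins_ne_last j).symm]
    simp
  · subst h
    by_cases hj : j' = j
    · subst hj; simp
    · rw [Function.update_of_ne (fun h => hj (ins_inj h))]
      simp [Function.update_of_ne hj]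

open Classical in
/-- The distribution: uniform shares; if the parity is even, bidder `0` has value `2`, otherwise it
has value `2` with probability `1 - 1/q` and value `2q` with probability `1/q`. -/
noncomputable def wt (m r : ℕ) : (Fin (m + 2) → ℝ) →₀ ℝ :=
  ∑ s : State m r, (Fintype.card (State m r) : ℝ)⁻¹ •
    (if par s then Finsupp.single (prof s 2) 1
      else Finsupp.single (prof s 2) (1 - 1 / qq r) +
        Finsupp.single (prof s (2 * qq r)) (1 / qq r))

open Classical in
theorem wt_sum (f : (Fin (m + 2) → ℝ) → ℝ) :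
    ∑ v ∈ (wt m r).support, wt m r v * f v =
      (Fintype.card (State m r) : ℝ)⁻¹ * ∑ s : State m r,
        (if par s then f (prof s 2)
          else (1 - 1 / qq r) * f (prof s 2) + (1 / qq r) * f (prof s (2 * qq r))) := by
  have h : Finsupp.linearCombination ℝ f (wt m r) = ∑ v ∈ (wt m r).support, wt m r v * f v := by
    rw [Finsupp.linearCombination_apply]
    rfl
  rw [← h, wt, map_sum, Finset.mul_sum]
  refine Finset.sum_congr rfl fun s _ => ?_
  rw [map_smul, smul_eq_mul]
  congr 1
  split_ifs
  · simp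
  · simp
    ring

theorem card_pos' : (0 : ℝ) < (Fintype.card (State m r) : ℝ) := by
  have : 0 < Fintype.card (State m r) := Fintype.card_pos
  exact_mod_cast this

open Classical in
theorem wt_apply (v : Fin (m + 2) → ℝ) :
    wt m r v = ∑ s : State m r, (Fintype.card (State m r) : ℝ)⁻¹ *
      (if par s then Finsupp.single (prof s 2) (1 : ℝ) v
      else Finsupp.single (prof s 2) (1 - 1 / qq r) v +
        Finsupp.single (prof s (2 * qq r)) (1 / qq r) v) := by
  unfold wt
  rw [Finsupp.finsetSum_apply]
  refine Finset.sum_congr rfl fun s _ => ?_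
  rw [Finsupp.smul_apply, smul_eq_mul]
  congr 1
  split_ifs
  · rfl
  · rw [Finsupp.add_apply]

theorem gam_le : 1 / qq r ≤ 1 := by
  rw [div_le_one (qq_pos r)]
  linarith [two_le_qq r]

theorem wt_nonneg (v : Fin (m + 2) → ℝ) : 0 ≤ wt m r v := by
  classical
  rw [wt_apply]
  refine Finset.sum_nonneg fun s _ => mul_nonneg (inv_nonneg.2 card_pos'.le) ?_
  have h1 := @gam_le r
  have h2 : 0 < 1 / qq r := by have := qq_pos r; positivity
  have hs : ∀ (a : Fin (m + 2) → ℝ) (b : ℝ), 0 ≤ b → 0 ≤ Finsupp.single a b v := by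
    intro a b hb
    rw [Finsupp.single_apply]
    split_ifs
    · exact hb
    · exact le_refl _
  split_ifs
  · exact hs _ _ zero_le_one
  · exact add_nonneg (hs _ _ (by linarith)) (hs _ _ h2.le)

theorem wt_support {v : Fin (m + 2) → ℝ} (hv : v ∈ (wt m r).support) :
    ∃ (s : State m r) (t : ℝ), 2 ≤ t ∧ v = prof s t := by
  classical
  by_contra hcon
  push Not at hcon
  apply (Finsupp.mem_support_iff.1 hv)
  rw [wt_apply]
  refine Finset.sum_eq_zero fun s _ => ?_
  have h2 : v ≠ prof s 2 := hcon s 2 le_rfl
  have hT : v ≠ prof s (2 * qq r) := hcon s _ (by linarith [two_le_qq r])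
  rw [Finsupp.single_eq_of_ne h2, Finsupp.single_eq_of_ne h2, Finsupp.single_eq_of_ne hT]
  simp

/-- The prior. -/
noncomputable def prior (m r : ℕ) : Prior (Fin (m + 2)) where
  pr := wt m r
  nonneg := wt_nonneg
  total := by
    classical
    have h := wt_sum (m := m) (r := r) (fun _ => 1)
    simp only [mul_one] at h
    rw [h]
    have : ∀ s : State m r, (if par s then (1 : ℝ) else (1 - 1 / qq r) + 1 / qq r) = 1 := by
      intro s; split_ifs
      · rfl
      · ring
    rw [Finset.sum_congr rfl fun s _ => this s]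
    rw [Finset.sum_const, Finset.card_univ, nsmul_eq_mul, mul_one]
    exact inv_mul_cancel₀ card_pos'.ne'
  pos := by
    intro v hv i
    obtain ⟨s, t, ht, rfl⟩ := wt_support hv
    exact prof_pos s (by linarith) i

/-! ### The shift of one share -/

/-- Rotate the share of insider `j`. -/
noncomputable def sh (j : Fin m) : Equiv.Perm (State m r) :=
  Equiv.piCongrRight fun i => if i = j then finRotate (2 * r + 1 + 1) else Equiv.refl _

theorem sh_self (j : Fin m) (s : State m r) : sh j s j = finRotate (2 * r + 1 + 1) (s j) := by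
  simp [sh]

theorem sh_ne {i j : Fin m} (h : i ≠ j) (s : State m r) : sh j s i = s i := by
  simp [sh, h]

theorem rot_even (c : Fin (2 * r + 2)) :
    Even ((finRotate (2 * r + 1 + 1) c : Fin (2 * r + 1 + 1)) : ℕ) ↔ ¬ Even (c : ℕ) := by
  by_cases h : c = Fin.last (2 * r + 1)
  · subst h
    rw [finRotate_last]
    simp
  · rw [coe_finRotate_of_ne_last h, Nat.even_add_one]

theorem par_sh (j : Fin m) (s : State m r) : par (sh j s) ↔ ¬ par s := by
  unfold par
  rw [← Finset.add_sum_erase Finset.univ (fun i => ((sh j s i : Fin (2 * r + 2)) : ℕ))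
      (Finset.mem_univ j),
    ← Finset.add_sum_erase Finset.univ (fun i => (s i : ℕ)) (Finset.mem_univ j)]
  have h1 : ∑ i ∈ Finset.univ.erase j, ((sh j s i : Fin (2 * r + 2)) : ℕ) =
      ∑ i ∈ Finset.univ.erase j, ((s i : Fin (2 * r + 2)) : ℕ) := by
    refine Finset.sum_congr rfl fun i hi => ?_
    rw [sh_ne (Finset.ne_of_mem_erase hi)]
  rw [h1, sh_self, Nat.even_add, Nat.even_add, rot_even]
  tauto

open Classical in
theorem sum_par_sh (j : Fin m) (f : State m r → ℝ) :
    ∑ s ∈ Finset.univ.filter (fun s : State m r => ¬ par s), f (sh j s) =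
      ∑ s ∈ Finset.univ.filter (fun s : State m r => par s), f s := by
  refine Finset.sum_equiv (sh j) ?_ ?_
  · intro s
    simp only [Finset.mem_filter, Finset.mem_univ, true_and]
    exact (par_sh j s).symm
  · intro s _; rfl

open Classical in
theorem card_odd (j : Fin m) :
    2 * ((Finset.univ.filter (fun s : State m r => ¬ par s)).card : ℝ) =
      (Fintype.card (State m r) : ℝ) := by
  have h := sum_par_sh (r := r) j (fun _ => 1)
  simp only [Finset.sum_const, nsmul_eq_mul, mul_one] at h
  have h2 := Finset.card_filter_add_card_filter_not (s := (Finset.univ : Finset (State m r)))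
    (fun s => par s)
  rw [Finset.card_univ] at h2
  have h3 : ((Finset.univ.filter (fun s : State m r => par s)).card : ℝ) +
      ((Finset.univ.filter (fun s : State m r => ¬ par s)).card : ℝ) =
      (Fintype.card (State m r) : ℝ) := by exact_mod_cast h2
  linarith

open Classical in
theorem card_last (j : Fin m) :
    qq r * ((Finset.univ.filter (fun s : State m r => s j = Fin.last (2 * r + 1))).card : ℝ) =
      (Fintype.card (State m r) : ℝ) := by
  have h1 : (Finset.univ.filter (fun s : State m r => s j = Fin.last (2 * r + 1))) =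
      Fintype.piFinset (fun i : Fin m => if i = j then {Fin.last (2 * r + 1)} else Finset.univ) := by
    ext s
    simp only [Finset.mem_filter, Finset.mem_univ, true_and, Fintype.mem_piFinset]
    constructor
    · intro h i
      split_ifs with hi
      · subst hi; simpa using h
      · simp
    · intro h
      have := h j
      simpa using this
  rw [h1, Fintype.card_piFinset]
  have h2 : ∀ i : Fin m, ((if i = j then ({Fin.last (2 * r + 1)} : Finset (Fin (2 * r + 2)))
      else Finset.univ).card : ℝ) = if i = j then 1 else qq r := by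
    intro i
    split_ifs
    · simp
    · simp [qq]
  rw [Nat.cast_prod, Finset.prod_congr rfl fun i _ => h2 i]
  have h3 : qq r = ∏ i : Fin m, (if i = j then qq r else 1) := by
    rw [Finset.prod_ite_eq']
    simp
  conv_lhs => rw [h3]
  rw [← Finset.prod_mul_distrib]
  have h4 : ∀ i : Fin m, (if i = j then qq r else 1) * (if i = j then 1 else
      ∏ i : Fin m, (if i = j then qq r else 1)) = qq r := by
    intro i
    rw [← h3]
    split_ifs <;> simp
  rw [Finset.prod_congr rfl fun i _ => h4 i]
  simp [qq]

end Pool.Agent.N606.KLook
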