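import Mathlib
import Pool.Agent.N606.KLook.Inst

set_option autoImplicit false

namespace Pool.Agent.N606.KLook

open scoped BigOperators

variable {m r : ℕ}

/-- Allocation probability of an insider is monotone in her value. -/
theorem x_mono {ι : Type} [Fintype ι] [DecidableEq ι] (M : Mech ι) (hM : M.Valid) {v : ι → ℝ}
    (hv : ∀ i, 0 < v i) (i : ι) {b : ℝ} (hb : v i < b) :
    M.x v i ≤ M.x (Function.update v i b) i := by
  have hb0 : 0 < b := lt_trans (hv i) hb
  have h1 := hM.truthful v hv i b hb0
  have h2 := hM.truthful _ (pos_update hv i hb0) i (v i) (hv i)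
  simp only [Function.update_idem, Function.update_eq_self, Function.update_self] at h2
  have h3 : 0 ≤ (M.x (Function.update v i b) i - M.x v i) * (b - v i) := by nlinarith
  by_contra hcon
  push Not at hcon
  have : (M.x (Function.update v i b) i - M.x v i) * (b - v i) < 0 :=
    mul_neg_of_neg_of_pos (by linarith) (by linarith)
  linarith

/-- Total probability of serving an insider. -/
noncomputable def XX (M : Mech (Fin (m + 2))) (v : Fin (m + 2) → ℝ) : ℝ :=
  ∑ j : Fin m, M.x v (ins j)

section upper

variable (M : Mech (Fin (m + 2))) (hM : M.Valid) (hl : ∀ v, M.x v (Fin.last (m + 1)) = 0)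

include hM hl

theorem feas (s : State m r) {t : ℝ} (ht : 0 < t) :
    M.x (prof s t) 0 + XX M (prof s t) ≤ 1 := by
  have h := hM.feasible _ (prof_pos s ht)
  rw [sum_split, hl] at h
  unfold XX
  linarith

theorem pay_insiders (s : State m r) {t : ℝ} (ht : 0 < t) :
    ∑ i, M.p (prof s t) i ≤ M.p (prof s t) 0 + (1 + 1 / qq r) * XX M (prof s t) := by
  rw [sum_split]
  have h1 : M.p (prof s t) (Fin.last (m + 1)) ≤ 0 := by
    have := hM.rational _ (prof_pos s ht) (Fin.last (m + 1))
    rw [hl] at this
    linarith
  have h2 : ∑ j : Fin m, M.p (prof s t) (ins j) ≤ (1 + 1 / qq r) * XX M (prof s t) := by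
    unfold XX
    rw [Finset.mul_sum]
    refine Finset.sum_le_sum fun j _ => ?_
    have h3 := hM.rational _ (prof_pos s ht) (ins j)
    rw [prof_ins] at h3
    have h4 := hM.nonneg _ (prof_pos s ht) (ins j)
    have h5 := val_le (s j)
    nlinarith
  linarith

omit hl in
theorem XX_nonneg (s : State m r) {t : ℝ} (ht : 0 < t) : 0 ≤ XX M (prof s t) :=
  Finset.sum_nonneg fun j _ => hM.nonneg _ (prof_pos s ht) (ins j)

theorem even_bound (s : State m r) :
    ∑ i, M.p (prof s 2) i ≤ 2 - (1 - 1 / qq r) * XX M (prof s 2) := by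
  have h1 := pay_insiders M hM hl s (t := 2) (by norm_num)
  have h2 := feas M hM hl s (t := 2) (by norm_num)
  have h3 := hM.rational _ (prof_pos s (t := 2) (by norm_num)) 0
  rw [prof_zero] at h3
  nlinarith

theorem odd_bound (s : State m r) :
    (1 - 1 / qq r) * (∑ i, M.p (prof s 2) i) +
      1 / qq r * ∑ i, M.p (prof s (2 * qq r)) i ≤ 2 + (1 + 1 / qq r) * XX M (prof s 2) := by
  have hq := qq_pos r
  have hq2 := two_le_qq r
  have hT : (0 : ℝ) < 2 * qq r := by linarith
  set g := 1 / qq r with hg
  have hg0 : 0 < g := by rw [hg]; positivity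
  have hg1 : g ≤ 1 := gam_le
  have hgq : g * qq r = 1 := by rw [hg]; field_simp
  have h1 := pay_insiders M hM hl s (t := 2) (by norm_num)
  have h1' := pay_insiders M hM hl s (t := 2 * qq r) hT
  have h2' := feas M hM hl s (t := 2 * qq r) hT
  have h3 := hM.rational _ (prof_pos s (t := 2) (by norm_num)) 0
  rw [prof_zero] at h3
  have h4 := hM.truthful _ (prof_pos s hT) 0 2 (by norm_num)
  rw [update_zero, prof_zero] at h4
  have h5 := XX_nonneg M hM s (t := 2) (by norm_num)
  have h6 := XX_nonneg M hM s (t := 2 * qq r) hT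
  have h7 := hM.nonneg _ (prof_pos s (t := 2) (by norm_num)) 0
  have h8 := hM.nonneg _ (prof_pos s hT) 0
  rw [← hg] at h1 h1'
  set P2 := ∑ i, M.p (prof s 2) i
  set PT := ∑ i, M.p (prof s (2 * qq r)) i
  set X2 := XX M (prof s 2)
  set XT := XX M (prof s (2 * qq r))
  set p2 := M.p (prof s 2) 0
  set pT := M.p (prof s (2 * qq r)) 0
  set x2 := M.x (prof s 2) 0
  set xT := M.x (prof s (2 * qq r)) 0
  -- g * pT ≤ g * p2 + 2 (xT - x2)
  have e1 : g * pT ≤ g * p2 + 2 * (xT - x2) := by
    have : pT ≤ p2 + 2 * qq r * (xT - x2) := by nlinarith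
    calc g * pT ≤ g * (p2 + 2 * qq r * (xT - x2)) := mul_le_mul_of_nonneg_left this hg0.le
      _ = g * p2 + 2 * (g * qq r) * (xT - x2) := by ring
      _ = g * p2 + 2 * (xT - x2) := by rw [hgq]; ring
  have e2 : (1 - g) * P2 ≤ (1 - g) * (p2 + (1 + g) * X2) :=
    mul_le_mul_of_nonneg_left h1 (by linarith)
  have e3 : g * PT ≤ g * (pT + (1 + g) * XT) := mul_le_mul_of_nonneg_left h1' hg0.le
  have e4 : g * ((1 + g) * XT) ≤ 2 * XT := by
    have : g * (1 + g) ≤ 2 := by nlinarith
    nlinarith
  have e5 : 0 ≤ g * ((1 + g) * X2) := by positivity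
  nlinarith

theorem x_shift (s : State m r) (j : Fin m) :
    M.x (prof s 2) (ins j) ≤ M.x (prof (sh j s) 2) (ins j) +
      (if s j = Fin.last (2 * r + 1) then 1 else 0) := by
  split_ifs with h
  · have h1 := x_le_one M hM (prof_pos s (t := 2) (by norm_num)) (ins j)
    have h2 := hM.nonneg _ (prof_pos (sh j s) (t := 2) (by norm_num)) (ins j)
    linarith
  · rw [add_zero]
    have hlt : s j < finRotate (2 * r + 1 + 1) (s j) := by
      rw [Fin.lt_def, coe_finRotate_of_ne_last h]
      exact Nat.lt_succ_self _
    have hsh : sh j s = Function.update s j (finRotate (2 * r + 1 + 1) (s j)) := by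
      funext i
      by_cases hi : i = j
      · subst hi; rw [sh_self, Function.update_self]
      · rw [sh_ne hi, Function.update_of_ne hi]
    rw [hsh, ← update_ins]
    apply x_mono M hM (prof_pos s (by norm_num))
    rw [prof_ins]
    exact val_lt hlt

open Classical in
theorem total_bound :
    ∑ s : State m r, (if par s then (∑ i, M.p (prof s 2) i)
          else (1 - 1 / qq r) * (∑ i, M.p (prof s 2) i) +
            (1 / qq r) * (∑ i, M.p (prof s (2 * qq r)) i)) ≤
      (Fintype.card (State m r) : ℝ) * (2 + 2 * (m + 1) / qq r) := by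
  have hq := qq_pos r
  have hq2 := two_le_qq r
  set N := (Fintype.card (State m r) : ℝ) with hN
  have hN0 : 0 < N := card_pos'
  set g := 1 / qq r with hg
  have hg0 : 0 < g := by rw [hg]; positivity
  have hg1 : g ≤ 1 := gam_le
  -- split in parity
  have hsplit : ∀ F G : State m r → ℝ, ∑ s : State m r, (if par s then F s else G s) =
      ∑ s ∈ Finset.univ.filter (fun s : State m r => par s), F s +
      ∑ s ∈ Finset.univ.filter (fun s : State m r => ¬ par s), G s := by
    intro F G
    rw [Finset.sum_ite]
  rw [hsplit]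
  set Ev := Finset.univ.filter (fun s : State m r => par s) with hEv
  set Od := Finset.univ.filter (fun s : State m r => ¬ par s) with hOd
  have b1 : ∑ s ∈ Ev, (∑ i, M.p (prof s 2) i) ≤ ∑ s ∈ Ev, (2 - (1 - g) * XX M (prof s 2)) :=
    Finset.sum_le_sum fun s _ => even_bound M hM hl s
  have b2 : ∑ s ∈ Od, ((1 - g) * (∑ i, M.p (prof s 2) i) +
            g * (∑ i, M.p (prof s (2 * qq r)) i)) ≤
      ∑ s ∈ Od, (2 + (1 + g) * XX M (prof s 2)) :=
    Finset.sum_le_sum fun s _ => odd_bound M hM hl s
  have b3 : ∑ s ∈ Od, XX M (prof s 2) ≤ ∑ s ∈ Ev, XX M (prof s 2) + m * (N * g) := by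
    unfold XX
    rw [Finset.sum_comm, Finset.sum_comm (s := Ev)]
    have : (m : ℝ) * (N * g) = ∑ j : Fin m, N * g := by
      rw [Finset.sum_const, Finset.card_univ, Fintype.card_fin, nsmul_eq_mul]
    rw [this, ← Finset.sum_add_distrib]
    refine Finset.sum_le_sum fun j _ => ?_
    have c1 : ∑ s ∈ Od, M.x (prof s 2) (ins j) ≤ ∑ s ∈ Od, (M.x (prof (sh j s) 2) (ins j) +
      (if s j = Fin.last (2 * r + 1) then 1 else 0)) :=
      Finset.sum_le_sum fun s _ => x_shift M hM hl s j
    rw [Finset.sum_add_distrib] at c1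
    have c2 := sum_par_sh (r := r) j (fun s => M.x (prof s 2) (ins j))
    have c3 : ∑ s ∈ Od, (if s j = Fin.last (2 * r + 1) then (1 : ℝ) else 0) ≤ N * g := by
      have d1 : ∑ s ∈ Od, (if s j = Fin.last (2 * r + 1) then (1 : ℝ) else 0) ≤
          ∑ s : State m r, (if s j = Fin.last (2 * r + 1) then (1 : ℝ) else 0) :=
        Finset.sum_le_sum_of_subset_of_nonneg (Finset.subset_univ _) fun s _ _ => by
          split_ifs <;> norm_num
      have d2 := card_last (r := r) j
      have d4 : ∑ s : State m r, (if s j = Fin.last (2 * r + 1) then (1 : ℝ) else 0) =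
          ((Finset.univ.filter (fun s : State m r => s j = Fin.last (2 * r + 1))).card : ℝ) := by
        rw [Finset.sum_boole]
      have d3 : ((Finset.univ.filter (fun s : State m r => s j = Fin.last (2 * r + 1))).card : ℝ) =
          N * g := by
        rw [hg, hN, ← d2]
        field_simp
      linarith
    linarith
  have b4 : ∑ s ∈ Ev, XX M (prof s 2) ≤ N := by
    have d1 : ∑ s ∈ Ev, XX M (prof s 2) ≤ ∑ s : State m r, (1 : ℝ) := by
      calc ∑ s ∈ Ev, XX M (prof s 2) ≤ ∑ s ∈ Ev, (1 : ℝ) := by
            refine Finset.sum_le_sum fun s _ => ?_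
            have h2 := feas M hM hl s (t := 2) (by norm_num)
            have h7 := hM.nonneg _ (prof_pos s (t := 2) (by norm_num)) 0
            linarith
        _ ≤ _ := Finset.sum_le_sum_of_subset_of_nonneg (Finset.subset_univ _) fun s _ _ => by
            norm_num
    simpa [hN] using d1
  have b5 : 0 ≤ ∑ s ∈ Ev, XX M (prof s 2) :=
    Finset.sum_nonneg fun s _ => XX_nonneg M hM s (by norm_num)
  have b6 : ((Ev.card : ℝ) + Od.card) = N := by
    have h2 := Finset.card_filter_add_card_filter_not (s := (Finset.univ : Finset (State m r)))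
      (fun s => par s)
    rw [Finset.card_univ] at h2
    rw [hN]
    exact_mod_cast h2
  rw [Finset.sum_sub_distrib, ← Finset.mul_sum, Finset.sum_const, nsmul_eq_mul] at b1
  have b2' : ∑ s ∈ Od, (2 + (1 + g) * XX M (prof s 2)) =
      (Od.card : ℝ) * 2 + (1 + g) * ∑ s ∈ Od, XX M (prof s 2) := by
    rw [Finset.sum_add_distrib, ← Finset.mul_sum, Finset.sum_const, nsmul_eq_mul]
  rw [b2'] at b2
  set E := ∑ s ∈ Ev, XX M (prof s 2)
  set O := ∑ s ∈ Od, XX M (prof s 2)
  have e1 : (1 + g) * O ≤ (1 + g) * (E + m * (N * g)) :=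
    mul_le_mul_of_nonneg_left b3 (by linarith)
  have e2 : (1 + g) * (m * (N * g)) ≤ 2 * (m * (N * g)) := by
    apply mul_le_mul_of_nonneg_right (by linarith)
    positivity
  have e3 : 2 * g * E ≤ 2 * g * N := mul_le_mul_of_nonneg_left b4 (by linarith)
  have e4 : N * (2 + 2 * (m + 1) / qq r) = 2 * N + 2 * g * N + 2 * (m * (N * g)) := by
    rw [hg]; field_simp; ring
  rw [e4]
  nlinarith

end upper

theorem revenue_prior_le (M : Mech (Fin (m + 2))) (hM : M.Valid)
    (hl : ∀ v, M.x v (Fin.last (m + 1)) = 0) :
    revenue (prior m r) M ≤ 2 + 2 * (m + 1) / qq r := by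
  classical
  have h1 : revenue (prior m r) M = ∑ v ∈ (wt m r).support, wt m r v * ∑ i, M.p v i := rfl
  rw [h1, wt_sum (fun v => ∑ i, M.p v i)]
  have h2 := total_bound (r := r) M hM hl
  have hN0 : (0 : ℝ) < (Fintype.card (State m r) : ℝ) := card_pos'
  rw [inv_mul_le_iff₀ hN0]
  exact h2

/-! ### The optimal mechanism on the instance -/

/-- The values of the insiders encode shares of odd sum. -/
def oddVal (r : ℕ) (v : Fin (m + 2) → ℝ) : Prop :=
  ∃ s : State m r, ¬ par s ∧ ∀ j, v (ins j) = val r (s j)

open Classical in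
/-- The price posted to bidder `0`. -/
noncomputable def price (r : ℕ) (v : Fin (m + 2) → ℝ) : ℝ := if oddVal r v then 2 * qq r else 2

open Classical in
/-- Post the price `price r v` to bidder `0` and then, if she declines, the price `1` to the
outsider. -/
noncomputable def star (m r : ℕ) : Mech (Fin (m + 2)) where
  x := fun v i => if i = 0 then (if price r v ≤ v 0 then 1 else 0)
    else if i = Fin.last (m + 1) then (if price r v ≤ v 0 then 0 else
      if 1 ≤ v (Fin.last (m + 1)) then 1 else 0) else 0
  p := fun v i => if i = 0 then (if price r v ≤ v 0 then price r v else 0)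
    else if i = Fin.last (m + 1) then (if price r v ≤ v 0 then 0 else
      if 1 ≤ v (Fin.last (m + 1)) then 1 else 0) else 0

theorem price_congr {v w : Fin (m + 2) → ℝ} (h : ∀ j, v (ins j) = w (ins j)) :
    price r v = price r w := by
  have h1 : oddVal r v ↔ oddVal r w := by
    unfold oddVal
    constructor
    · rintro ⟨s, h1, h2⟩
      exact ⟨s, h1, fun j => by rw [← h j]; exact h2 j⟩
    · rintro ⟨s, h1, h2⟩
      exact ⟨s, h1, fun j => by rw [h j]; exact h2 j⟩
  unfold price
  by_cases h2 : oddVal r v
  · rw [if_pos h2, if_pos (h1.1 h2)]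
  · rw [if_neg h2, if_neg (fun h => h2 (h1.2 h))]

theorem price_update_zero (v : Fin (m + 2) → ℝ) (b : ℝ) :
    price r (Function.update v 0 b) = price r v :=
  price_congr fun j => by rw [Function.update_of_ne (ins_ne_zero j)]

theorem price_update_last (v : Fin (m + 2) → ℝ) (b : ℝ) :
    price r (Function.update v (Fin.last (m + 1)) b) = price r v :=
  price_congr fun j => by rw [Function.update_of_ne (ins_ne_last j)]

theorem zero_ne_last : (0 : Fin (m + 2)) ≠ Fin.last (m + 1) := (Fin.last_pos).ne

theorem star_valid : (star m r).Valid where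
  nonneg := by
    intro v _ i
    simp only [star]
    split_ifs <;> norm_num
  feasible := by
    intro v _
    rw [sum_split]
    simp only [star, ins_ne_zero, ins_ne_last, zero_ne_last.symm, if_true, if_false,
      Finset.sum_const_zero]
    split_ifs <;> norm_num
  rational := by
    intro v hv i
    rcases fin_cases3 i with h | h | ⟨j, h⟩
    · subst h
      simp only [star, if_true]
      split_ifs <;> linarith
    · subst h
      simp only [star, zero_ne_last.symm, if_true, if_false]
      split_ifs <;> linarith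
    · subst h
      simp only [star, ins_ne_zero, ins_ne_last, if_false]
      norm_num
  truthful := by
    intro v hv i b hb
    rcases fin_cases3 i with h | h | ⟨j, h⟩
    · subst h
      simp only [star, if_true, price_update_zero, Function.update_self]
      split_ifs <;> linarith
    · subst h
      simp only [star, zero_ne_last.symm, if_true, if_false, price_update_last,
        Function.update_self, Function.update_of_ne zero_ne_last]
      split_ifs <;> linarith
    · subst h
      simp only [star, ins_ne_zero, ins_ne_last, if_false]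
      norm_num

theorem oddVal_prof (s : State m r) (t : ℝ) : oddVal r (prof s t) ↔ ¬ par s := by
  constructor
  · rintro ⟨s', h1, h2⟩
    have : s' = s := by
      funext j
      have := h2 j
      rw [prof_ins] at this
      exact (val_inj this).symm
    rwa [this] at h1
  · intro h
    exact ⟨s, h, fun j => prof_ins s t j⟩

theorem star_rev_even (s : State m r) (h : par s) : ∑ i, (star m r).p (prof s 2) i = 2 := by
  rw [sum_split]
  have hp : price r (prof s 2) = 2 := by
    unfold price
    rw [if_neg]
    rw [oddVal_prof]; exact not_not.2 h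
  simp only [star, ins_ne_zero, ins_ne_last, zero_ne_last.symm, if_true, if_false,
      Finset.sum_const_zero, hp, prof_zero, le_refl]
  norm_num

theorem star_rev_odd_low (s : State m r) (h : ¬ par s) :
    ∑ i, (star m r).p (prof s 2) i = 1 := by
  rw [sum_split]
  have hp : price r (prof s 2) = 2 * qq r := by
    unfold price
    rw [if_pos]
    rw [oddVal_prof]; exact h
  have hlt : ¬ (2 * qq r ≤ 2) := by have := two_le_qq r; linarith
  simp only [star, ins_ne_zero, ins_ne_last, zero_ne_last.symm, if_true, if_false,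
      Finset.sum_const_zero, hp, prof_zero, prof_last, le_refl, hlt]
  norm_num

theorem star_rev_odd_high (s : State m r) (h : ¬ par s) :
    ∑ i, (star m r).p (prof s (2 * qq r)) i = 2 * qq r := by
  rw [sum_split]
  have hp : price r (prof s (2 * qq r)) = 2 * qq r := by
    unfold price
    rw [if_pos]
    rw [oddVal_prof]; exact h
  simp only [star, ins_ne_zero, ins_ne_last, zero_ne_last.symm, if_true, if_false,
      Finset.sum_const_zero, hp, prof_zero, le_refl]
  norm_num

theorem opt_ge (hm : 0 < m) : (5 - 1 / qq r) / 2 ≤ opt (prior m r) := by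
  classical
  refine le_trans ?_ (revenue_le_opt _ (star m r) star_valid)
  have h1 : revenue (prior m r) (star m r) =
      ∑ v ∈ (wt m r).support, wt m r v * ∑ i, (star m r).p v i := rfl
  rw [h1, wt_sum (fun v => ∑ i, (star m r).p v i)]
  have hq := qq_pos r
  have h2 : ∀ s : State m r, (if par s then (∑ i, (star m r).p (prof s 2) i)
      else (1 - 1 / qq r) * (∑ i, (star m r).p (prof s 2) i) +
        (1 / qq r) * (∑ i, (star m r).p (prof s (2 * qq r)) i)) =
        if par s then 2 else 3 - 1 / qq r := by
    intro s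
    split_ifs with h
    · exact star_rev_even s h
    · rw [star_rev_odd_low s h, star_rev_odd_high s h]
      field_simp
      ring
  rw [Finset.sum_congr rfl fun s _ => h2 s, Finset.sum_ite, Finset.sum_const, Finset.sum_const,
    nsmul_eq_mul, nsmul_eq_mul]
  have hN0 : (0 : ℝ) < (Fintype.card (State m r) : ℝ) := card_pos'
  have h3 := card_odd (r := r) (⟨0, hm⟩ : Fin m)
  have h4 := Finset.card_filter_add_card_filter_not (s := (Finset.univ : Finset (State m r)))
    (fun s => par s)
  rw [Finset.card_univ] at h4
  have h5 : ((Finset.univ.filter (fun s : State m r => par s)).card : ℝ) +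
      ((Finset.univ.filter (fun s : State m r => ¬ par s)).card : ℝ) =
      (Fintype.card (State m r) : ℝ) := by exact_mod_cast h4
  rw [le_inv_mul_iff₀ hN0, ← h3]
  have h6 : ((Finset.univ.filter (fun s : State m r => par s)).card : ℝ) =
    ((Finset.univ.filter (fun s : State m r => ¬ par s)).card : ℝ) := by linarith
  rw [h6]
  ring_nf
  exact le_refl _

/-! ### The lookahead mechanism on the instance -/

/-- The set of all bidders but the outsider. -/
def KK (m : ℕ) : Finset (Fin (m + 2)) := Finset.univ.erase (Fin.last (m + 1))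

theorem top_prof (s : State m r) {t : ℝ} (ht : 2 ≤ t) : top (m + 1) (prof s t) = KK m := by
  classical
  have hgt : ∀ i : Fin (m + 2), i ≠ Fin.last (m + 1) → 1 < prof s t i := by
    intro i hi
    rcases fin_cases3 i with h | h | ⟨j, h⟩
    · subst h; rw [prof_zero]; linarith
    · exact absurd h hi
    · subst h; rw [prof_ins]; exact one_lt_val _
  ext i
  unfold top KK
  simp only [Finset.mem_filter, Finset.mem_univ, true_and, Finset.mem_erase, and_true]
  constructor
  · intro h hi
    subst hi
    refine absurd h (not_lt.2 ?_)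
    calc m + 1 = (Finset.univ.erase (Fin.last (m + 1))).card := by simp
      _ ≤ _ := Finset.card_le_card ?_
    intro j hj
    rw [Finset.mem_filter]
    refine ⟨Finset.mem_univ _, Or.inl ?_⟩
    rw [prof_last]
    exact hgt j (Finset.ne_of_mem_erase hj)
  · intro hi
    have hc : ((Finset.univ.erase (Fin.last (m + 1))).erase i).card = m := by
      rw [Finset.card_erase_of_mem, Finset.card_erase_of_mem (Finset.mem_univ _),
        Finset.card_univ, Fintype.card_fin]
      · omega
      · rw [Finset.mem_erase]; exact ⟨hi, Finset.mem_univ _⟩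
    refine Nat.lt_succ_of_le ?_
    calc _ ≤ ((Finset.univ.erase (Fin.last (m + 1))).erase i).card := Finset.card_le_card ?_
      _ = m := hc
    intro j hj
    rw [Finset.mem_filter] at hj
    rw [Finset.mem_erase, Finset.mem_erase]
    refine ⟨?_, ?_, Finset.mem_univ _⟩
    · rintro rfl
      rcases hj.2 with h | h
      · exact lt_irrefl _ h
      · exact lt_irrefl _ h.2
    · rintro rfl
      have := hgt i hi
      rcases hj.2 with h | h
      · rw [prof_last] at h; linarith
      · rw [prof_last] at h; linarith [h.1]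

open Classical in
/-- Extend a mechanism for the bidders in `K` to all bidders. -/
noncomputable def lift {n : ℕ} (K : Finset (Fin n)) (M : Mech {i : Fin n // i ∈ K}) :
    Mech (Fin n) where
  x := fun v i => if h : i ∈ K then M.x (fun j => v j) ⟨i, h⟩ else 0
  p := fun v i => if h : i ∈ K then M.p (fun j => v j) ⟨i, h⟩ else 0

theorem sum_dite_mem {n : ℕ} (K : Finset (Fin n)) (f : {i : Fin n // i ∈ K} → ℝ) :
    ∑ i : Fin n, (if h : i ∈ K then f ⟨i, h⟩ else 0) = ∑ i : {i : Fin n // i ∈ K}, f i := by
  classical
  have h1 : ∑ i : Fin n, (if h : i ∈ K then f ⟨i, h⟩ else 0) =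
      ∑ i ∈ K, (if h : i ∈ K then f ⟨i, h⟩ else 0) := by
    symm
    apply Finset.sum_subset (Finset.subset_univ K)
    intro i _ hi
    rw [dif_neg hi]
  rw [h1, ← Finset.sum_coe_sort K]
  refine Finset.sum_congr rfl fun i _ => ?_
  rw [dif_pos i.2]

theorem restrict_update {n : ℕ} (K : Finset (Fin n)) (v : Fin n → ℝ) (i : Fin n) (h : i ∈ K)
    (b : ℝ) : (fun j : {i : Fin n // i ∈ K} => Function.update v i b j) =
      Function.update (fun j : {i : Fin n // i ∈ K} => v j) ⟨i, h⟩ b := by
  funext j
  by_cases hj : j = ⟨i, h⟩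
  · subst hj; simp
  · have : (j : Fin n) ≠ i := fun e => hj (Subtype.ext e)
    rw [Function.update_of_ne hj, Function.update_of_ne this]

theorem lift_valid {n : ℕ} (K : Finset (Fin n)) (M : Mech {i : Fin n // i ∈ K}) (hM : M.Valid) :
    (lift K M).Valid where
  nonneg := by
    intro v hv i
    simp only [lift]
    split_ifs with h
    · exact hM.nonneg _ (fun j => hv j) _
    · exact le_refl _
  feasible := by
    intro v hv
    have := hM.feasible (fun j => v j) (fun j => hv j)
    rw [← sum_dite_mem] at this
    exact this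
  rational := by
    intro v hv i
    simp only [lift]
    split_ifs with h
    · exact hM.rational (fun j => v j) (fun j => hv j) ⟨i, h⟩
    · norm_num
  truthful := by
    intro v hv i b hb
    simp only [lift]
    split_ifs with h
    · have := hM.truthful (fun j => v j) (fun j => hv j) ⟨i, h⟩ b hb
      rw [← restrict_update K v i h b] at this
      exact this
    · norm_num

theorem lookRevenue_le
    (A : (K : Finset (Fin (m + 2))) → ({j : Fin (m + 2) // j ∉ K} → ℝ) →
      Mech {i : Fin (m + 2) // i ∈ K}) (hA : IsLookahead (m + 1) (prior m r) A) :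
    lookRevenue (m + 1) (prior m r) A ≤ 2 + 2 * (m + 1) / qq r := by
  -- the outside profile is constant
  have hw : ∀ v ∈ (prior m r).pr.support, (fun j : {j : Fin (m + 2) // j ∉ KK m} => v j) =
      fun _ => 1 := by
    intro v hv
    obtain ⟨s, t, ht, rfl⟩ := wt_support hv
    funext j
    have hj : (j : Fin (m + 2)) = Fin.last (m + 1) := by
      have := j.2
      unfold KK at this
      simpa using this
    show prof s t j = 1
    rw [hj, prof_last]
  have htop : ∀ v ∈ (prior m r).pr.support, top (m + 1) v = KK m := by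
    intro v hv
    obtain ⟨s, t, ht, rfl⟩ := wt_support hv
    exact top_prof s ht
  set M0 : Mech {i : Fin (m + 2) // i ∈ KK m} := A (KK m) (fun _ => 1) with hM0
  have hval : M0.Valid := by
    have hne : (prior m r).pr.support.Nonempty := by
      by_contra hcon
      rw [Finset.not_nonempty_iff_eq_empty] at hcon
      have := (prior m r).total
      rw [hcon] at this
      simp at this
    obtain ⟨v, hv⟩ := hne
    have h1 := (hA v hv).1
    have gen : ∀ K : Finset (Fin (m + 2)), K = KK m → (A K (fun j => v j)).Valid → M0.Valid := by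
      intro K hK h
      subst hK
      rw [hw v hv] at h
      exact h
    exact gen _ (htop v hv) h1
  have hrev : lookRevenue (m + 1) (prior m r) A = revenue (prior m r) (lift (KK m) M0) := by
    unfold lookRevenue revenue
    refine Finset.sum_congr rfl fun v hv => ?_
    congr 1
    have gen : ∀ K : Finset (Fin (m + 2)), K = KK m →
        ∑ i : {i : Fin (m + 2) // i ∈ K}, (A K (fun j => v j)).p (fun j => v j) i =
          ∑ i, (lift (KK m) M0).p v i := by
      intro K hK
      subst hK
      rw [hw v hv]
      have := sum_dite_mem (KK m) (fun i => M0.p (fun j => v j) i)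
      simp only [lift]
      rw [this]
    exact gen _ (htop v hv)
  rw [hrev]
  apply revenue_prior_le _ (lift_valid _ _ hval)
  intro v
  simp [lift, KK]

theorem rho_le_param (hm : 0 < m) :
    rho (m + 1) ≤ (((2 + 2 * (m + 1) / qq r) / ((5 - 1 / qq r) / 2) : ℝ) : EReal) := by
  obtain ⟨A, hA⟩ := exists_lookahead (m + 1) (prior m r)
  have h1 := lookRevenue_le A hA
  have h2 := opt_ge (r := r) hm
  have hg : 1 / qq r ≤ 1 := gam_le
  have hpos : (0 : ℝ) < (5 - 1 / qq r) / 2 := by linarith
  have hopt : 0 < opt (prior m r) := lt_of_lt_of_le hpos h2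
  refine le_trans (sInf_le ⟨m + 2, prior m r, A, hA, hopt, rfl⟩) ?_
  rw [EReal.coe_le_coe_iff]
  have hq := qq_pos r
  apply div_le_div₀
  · positivity
  · exact h1
  · exact hpos
  · exact h2

theorem tends (m : ℕ) : Filter.Tendsto (fun r : ℕ =>
    (((2 + 2 * (m + 1) / qq r) / ((5 - 1 / qq r) / 2) : ℝ) : EReal)) Filter.atTop
    (nhds ((4 / 5 : ℝ) : EReal)) := by
  have hq : Filter.Tendsto (fun r : ℕ => qq r) Filter.atTop Filter.atTop := by
    unfold qq
    apply Filter.tendsto_atTop_add_const_right
    exact Filter.Tendsto.const_mul_atTop (by norm_num) tendsto_natCast_atTop_atTop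
  have h1 : Filter.Tendsto (fun r : ℕ => (2 : ℝ) + 2 * (m + 1) / qq r) Filter.atTop
      (nhds (2 + 0)) := (tendsto_const_nhds).add (Filter.Tendsto.const_div_atTop hq _)
  have h2 : Filter.Tendsto (fun r : ℕ => ((5 : ℝ) - 1 / qq r) / 2) Filter.atTop
      (nhds ((5 - 0) / 2)) :=
    ((tendsto_const_nhds).sub (Filter.Tendsto.const_div_atTop hq _)).div_const _
  have h3 := h1.div h2 (by norm_num)
  have h4 : ((2 : ℝ) + 0) / ((5 - 0) / 2) = 4 / 5 := by norm_num
  rw [h4] at h3
  exact (continuous_coe_real_ereal.tendsto _).comp h3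

theorem rho_le {k : ℕ} (hk : 2 ≤ k) : rho k ≤ ((4 / 5 : ℝ) : EReal) := by
  obtain ⟨m, rfl⟩ : ∃ m, k = m + 1 := ⟨k - 1, by omega⟩
  exact ge_of_tendsto' (tends m) fun r => rho_le_param (by omega)

theorem not_tendsto : ¬ Filter.Tendsto rho Filter.atTop (nhds 1) := by
  intro h
  have h1 : ((4 / 5 : ℝ) : EReal) < 1 := by
    rw [← EReal.coe_one, EReal.coe_lt_coe_iff]; norm_num
  have h2 := (tendsto_order.1 h).1 _ h1
  obtain ⟨k, hk1, hk2⟩ := (h2.and (Filter.eventually_ge_atTop 2)).exists
  exact absurd (rho_le hk2) (not_le.2 hk1)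

end Pool.Agent.N606.KLook
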