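import Mathlib
import Pool.Agent.N606.KLook.Bound

set_option autoImplicit false

namespace Pool.Agent.N606.KLook

open scoped BigOperators

/-- Nobody outside the top set has a larger value than somebody in it. -/
theorem le_of_top {n k : ℕ} {v : Fin n → ℝ} {i j : Fin n} (hi : i ∈ top k v) (hj : j ∉ top k v) :
    v j ≤ v i := by
  by_contra hcon
  push Not at hcon
  apply hj
  unfold top at hi ⊢
  rw [Finset.mem_filter] at hi ⊢
  refine ⟨Finset.mem_univ _, lt_of_le_of_lt (Finset.card_le_card ?_) hi.2⟩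
  intro l hl
  rw [Finset.mem_filter] at hl ⊢
  refine ⟨Finset.mem_univ _, Or.inl ?_⟩
  rcases hl.2 with h | h
  · exact hcon.trans h
  · rw [h.1]; exact hcon

theorem mem_event {n k : ℕ} (D : Prior (Fin n)) {v : Fin n → ℝ} (hv : v ∈ D.pr.support) :
    v ∈ event D (top k v) (fun j => v j) := by
  unfold event
  rw [Finset.mem_filter]
  exact ⟨hv, fun _ => rfl, fun i hi j => le_of_top hi j.2⟩

/-- On the conditioning event, the payments of a revenue-maximising mechanism are nonnegative. -/
theorem pay_nonneg {n : ℕ} (D : Prior (Fin n)) (K : Finset (Fin n))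
    (w : {j : Fin n // j ∉ K} → ℝ) (M : Mech {i : Fin n // i ∈ K}) (hM : M.Valid)
    (hmax : ∀ M' : Mech {i : Fin n // i ∈ K}, M'.Valid → condRevenue D K w M' ≤ condRevenue D K w M)
    {v : Fin n → ℝ} (hv : v ∈ event D K w) (i : {i : Fin n // i ∈ K}) :
    0 ≤ M.p (fun j => v j) i := by
  by_contra hcon
  push Not at hcon
  have hsup : ∀ a ∈ event D K w, a ∈ D.pr.support := fun a ha => (Finset.mem_filter.1 ha).1
  have hpos : ∀ a ∈ event D K w, ∀ j : {i : Fin n // i ∈ K}, 0 < a j := fun a ha j =>
    D.pos a (hsup a ha) j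
  have hDpos : ∀ a ∈ event D K w, 0 < D.pr a := fun a ha =>
    lt_of_le_of_ne (D.nonneg a) (Finsupp.mem_support_iff.1 (hsup a ha)).symm
  have h1 := hmax (norm M) (norm_valid M hM)
  unfold condRevenue at h1
  have htot : 0 < ∑ a ∈ event D K w, D.pr a := Finset.sum_pos hDpos ⟨v, hv⟩
  rw [div_le_div_iff_of_pos_right htot] at h1
  have hu : 0 < u0 M (fun j : {i : Fin n // i ∈ K} => v j) i := by
    have := neg_p_le_u0 M hM (fun j => hpos v hv j) i
    linarith
  have h2 : ∑ a ∈ event D K w, D.pr a * ∑ l, M.p (fun j => a j) l <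
      ∑ a ∈ event D K w, D.pr a * ∑ l, (norm M).p (fun j => a j) l := by
    apply Finset.sum_lt_sum
    · intro a ha
      refine mul_le_mul_of_nonneg_left ?_ (D.nonneg a)
      refine Finset.sum_le_sum fun l _ => ?_
      simp only [norm, if_pos (hpos a ha)]
      have := u0_nonneg M hM (fun j => hpos a ha j) l
      linarith
    · refine ⟨v, hv, mul_lt_mul_of_pos_left ?_ (hDpos v hv)⟩
      apply Finset.sum_lt_sum
      · intro l _
        simp only [norm, if_pos (hpos v hv)]
        have := u0_nonneg M hM (fun j => hpos v hv j) l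
        linarith
      · refine ⟨i, Finset.mem_univ _, ?_⟩
        simp only [norm, if_pos (hpos v hv)]
        linarith
  linarith

theorem lookRevenue_nonneg {n k : ℕ} (D : Prior (Fin n))
    (A : (K : Finset (Fin n)) → ({j : Fin n // j ∉ K} → ℝ) → Mech {i : Fin n // i ∈ K})
    (hA : IsLookahead k D A) : 0 ≤ lookRevenue k D A := by
  unfold lookRevenue
  refine Finset.sum_nonneg fun v hv => mul_nonneg (D.nonneg v) ?_
  refine Finset.sum_nonneg fun i _ => ?_
  exact pay_nonneg D (top k v) (fun j => v j) _ (hA v hv).1 (hA v hv).2 (mem_event D hv) i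

theorem rho_nonneg (k : ℕ) : 0 ≤ rho k := by
  refine le_sInf ?_
  rintro _ ⟨n, D, A, hA, hpos, rfl⟩
  exact_mod_cast div_nonneg (lookRevenue_nonneg D A hA) hpos.le

end Pool.Agent.N606.KLook
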